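import Pool.Agent.H97.HV.Targets
import Pool.Agent.H45.NF.CL

/-!
# MP_e37c09_lc, HV, module MIN: the measure is a member of HOD(V_ γ)
-/

open Ordinal Cardinal Order Set
open scoped ZFSet

universe u

namespace Pool.Agent.H94.HV

open _root_.HD HD.PRK HD.HV

theorem dz_pos (μ κ : Ordinal.{u}) {S : ZFSet.{u}} (hS : OD S) :
    DZ fun v : ℕ → ZFSet.{u} => Pos μ κ {a | a.toZFSet ∈ S ∧ a.toZFSet ∉ v 0} := by
  have h1 : Loc.{u} fun v => (v 0).IsOrdinal ∧ (v 1).IsOrdinal ∧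
      Pos (v 0).rank (v 1).rank {b | b.toZFSet ∈ v 2 ∧ b.toZFSet ∉ v 3} :=
    loc_pos HD.All.la (P := fun b v => b ∈ v 2 ∧ b ∉ v 3) 0 1
      ((Loc.mem 0 3).and (Loc.mem 0 4).not)
  have h2 : DZ fun v : ℕ → ZFSet.{u} => (v 0).IsOrdinal ∧ (κ.toZFSet).IsOrdinal ∧
      Pos (v 0).rank (κ.toZFSet).rank {b | b.toZFSet ∈ S ∧ b.toZFSet ∉ v 1} := by
    refine DZ.od (R := fun s v => (v 0).IsOrdinal ∧ (κ.toZFSet).IsOrdinal ∧
      Pos (v 0).rank (κ.toZFSet).rank {b | b.toZFSet ∈ s ∧ b.toZFSet ∉ v 1}) hS ?_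
    refine DZ.od (R := fun k v => (v 1).IsOrdinal ∧ k.IsOrdinal ∧
      Pos (v 1).rank k.rank {b | b.toZFSet ∈ v 0 ∧ b.toZFSet ∉ v 2}) (OD.ordinal κ) ?_
    exact h1.dz.ren fun n => if n = 0 then 2 else if n = 1 then 0 else if n = 2 then 1 else 3
  have h3 := DZ.od (R := fun m v => m.IsOrdinal ∧ (κ.toZFSet).IsOrdinal ∧
      Pos m.rank (κ.toZFSet).rank {b | b.toZFSet ∈ S ∧ b.toZFSet ∉ v 0}) (OD.ordinal μ) h2
  refine h3.congr fun v => ?_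
  rw [rank_toZFSet, rank_toZFSet]
  exact ⟨fun h => ⟨ZFSet.isOrdinal_toZFSet _, ZFSet.isOrdinal_toZFSet _, h⟩, fun h => h.2.2⟩

theorem pf_MIN (h0 : T_PVA.{u}) (h1 : T_PVD.{u}) : T_MIN.{u} := by
  intro γ μ κ S hγ hS
  have hod : OD (US γ μ κ S) :=
    Pool.Agent.H45.NF.od_sep (Pool.Agent.H45.NF.od_powerset (OD.ordinal κ))
      (P := fun x => NV γ x ∧ ¬ Pos μ κ {a | a.toZFSet ∈ S ∧ a.toZFSet ∉ x})
      ((h1 γ).2.and (dz_pos μ κ hS).not)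
  refine ZFSet.hereditarily_iff.2 ⟨h0.1 γ _ hγ hod, fun x hx => ?_⟩
  exact (ZFSet.mem_sep.1 hx).2.1

end Pool.Agent.H94.HV
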